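import Pool.Agent.L0h86.JQ.StmA
import Pool.Agent.L0h9.SJ.EUL

set_option autoImplicit false

/-! # Project JQ, module EULS: Euler's identity, the second one -/

namespace Pool.Agent.L0h72.JQ

open Finset Pool.Agent.L0h1.SJ Pool.Agent.L0h9.SJ Pool.Agent.L0h86.JQ Filter Topology

theorem FF_one : FF 1 = eta := by
  have h2 : Tendsto (fun n : ℕ => (∏ i ∈ range n, (1 - (1 / 2 : ℝ) ^ (i + 1))) *
      FF ((1 / 2) ^ n)) atTop (𝓝 (eta * 1)) := eta_lim.mul FF_lim
  rw [mul_one] at h2
  have h3 : Tendsto (fun _ : ℕ => FF 1) atTop (𝓝 eta) := h2.congr fun n => (FF_prod n).symm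
  exact tendsto_nhds_unique tendsto_const_nhds h3

theorem t_EULS : S_EULS := by
  have h1 : FF (1 / 2) = 2 * eta := by
    have h := FF_half (x := 1) (by norm_num) le_rfl
    rw [FF_one] at h
    linarith
  unfold S_EULS
  rw [← h1]
  have h2 := (tm_summable (x := 1 / 2) (by norm_num) (by norm_num)).hasSum.tendsto_sum_nat
  have h3 := (tendsto_add_atTop_iff_nat 1).2 h2
  refine h3.congr fun T => Finset.sum_congr rfl fun k _ => ?_
  unfold tm aa ak
  rw [div_pow, one_pow, mul_assoc, ← div_eq_mul_one_div, div_eq_mul_inv, div_eq_mul_inv, mul_inv]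
  ring

end Pool.Agent.L0h72.JQ
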